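import Pool.Agent.Work.MP_156639_an.Interface

/-!
# MP_156639_an : block JRZ
-/

set_option autoImplicit false

open scoped BigOperators ENNReal
open Filter Topology

namespace Pool.Agent.MP156639
namespace JRZ

section restr
variable {α : Type} {E : α → Type} [∀ i, NormedAddCommGroup (E i)] [∀ i, NormedSpace ℝ (E i)]

open Classical in
omit [∀ i, NormedSpace ℝ (E i)] in
theorem memlp_restr (A : Set α) (f : lp E 1) : Memℓp (fun i => if i ∈ A then f i else 0) 1 := by
  apply memℓp_gen
  have h := (lp.memℓp f).summable (by simp)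
  refine Summable.of_nonneg_of_le (fun i => by positivity) (fun i => ?_) h
  split_ifs <;> simp

open Classical in
/-- restriction to the coordinates in `A` -/
noncomputable def restr (A : Set α) : lp E 1 →L[ℝ] lp E 1 :=
  LinearMap.mkContinuous
    { toFun := fun f => ⟨fun i => if i ∈ A then f i else 0, memlp_restr A f⟩
      map_add' := by
        intro f g
        ext i
        simp only [lp.coeFn_add, Pi.add_apply]
        split_ifs <;> simp
      map_smul' := by
        intro c f
        ext i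
        simp only [lp.coeFn_smul, Pi.smul_apply, RingHom.id_apply]
        split_ifs <;> simp } 1 (by
      intro f
      have h := (lp.memℓp f).summable (by simp)
      have h2 := (memlp_restr A f).summable (by simp)
      rw [one_mul, lp.norm_eq_tsum_rpow (by simp), lp.norm_eq_tsum_rpow (by simp)]
      simp only [ENNReal.toReal_one, Real.rpow_one, div_one] at h h2 ⊢
      refine Summable.tsum_le_tsum (fun i => ?_) h2 h
      simp only [LinearMap.coe_mk, AddHom.coe_mk]
      split_ifs <;> simp)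

open Classical in
theorem restr_apply (A : Set α) (f : lp E 1) (i : α) :
    restr A f i = if i ∈ A then f i else 0 := rfl

end restr

variable {Y : Type} [NormedAddCommGroup Y] [NormedSpace ℝ Y]

/-- the closed separable subspaces -/
def GG (Y : Type) [NormedAddCommGroup Y] [NormedSpace ℝ Y] : Type :=
  {G : Submodule ℝ Y // IsClosed (G : Set Y) ∧ TopologicalSpace.IsSeparable (G : Set Y)}

abbrev EE (i : ℝ × GG Y) : Type := (i.2.1 : Submodule ℝ Y)

instance [CompleteSpace Y] (i : ℝ × GG Y) : CompleteSpace (EE i) :=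
  i.2.2.1.completeSpace_coe

instance (i : ℝ × GG Y) : TopologicalSpace.SeparableSpace (EE i) :=
  i.2.2.2.separableSpace

abbrev ZZ (Y : Type) [NormedAddCommGroup Y] [NormedSpace ℝ Y] : Type :=
  lp (fun i : ℝ × GG Y => EE i) 1

theorem countable_supp (f : ZZ Y) : {i | f i ≠ 0}.Countable := by
  have h := ((lp.memℓp f).summable (by simp)).countable_support
  refine h.mono ?_
  intro i hi
  simp only [Set.mem_ofPred_eq] at hi
  simp only [ENNReal.toReal_one, Real.rpow_one, Function.mem_support]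
  exact norm_ne_zero_iff.2 hi

/-- functions supported in a countable set form a separable set -/
theorem sep_supp (A : Set (ℝ × GG Y)) (hA : A.Countable) :
    TopologicalSpace.IsSeparable {f : ZZ Y | ∀ i, i ∉ A → f i = 0} := by
  classical
  have h1 : TopologicalSpace.IsSeparable
      (⋃ i ∈ A, Set.range (fun g : EE i => (lp.single 1 i g : ZZ Y))) := by
    have := hA.to_subtype
    rw [Set.biUnion_eq_iUnion]
    refine TopologicalSpace.IsSeparable.iUnion (fun i => ?_)
    exact TopologicalSpace.isSeparable_range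
      (lp.singleContinuousLinearMap ℝ (fun i : ℝ × GG Y => EE i) 1 i.1).continuous
  have h2 := (h1.span (R := ℝ)).closure
  refine h2.mono ?_
  intro f hf
  have hs := lp.hasSum_single (p := 1) (by simp) f
  refine mem_closure_of_tendsto hs (Eventually.of_forall (fun s => ?_))
  refine Submodule.sum_mem _ (fun i _ => ?_)
  by_cases hi : i ∈ A
  · apply Submodule.subset_span
    simp only [Set.mem_iUnion]
    exact ⟨i, hi, f i, rfl⟩
  · rw [hf i hi, lp.single_zero]
    exact Submodule.zero_mem _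

theorem closedCompl_range {X : Type} [NormedAddCommGroup X] [NormedSpace ℝ X] (P : X →L[ℝ] X)
    (hP : ∀ x, P (P x) = P x) : (LinearMap.range P.toLinearMap).ClosedComplemented := by
  refine ⟨P.codRestrict _ (fun x => ⟨x, rfl⟩), ?_⟩
  rintro ⟨x, y, rfl⟩
  apply Subtype.ext
  exact hP y

/-- the big space has SCP -/
theorem scp_X [CompleteSpace Y]
    (hstar : ∀ S : Set Y, TopologicalSpace.IsSeparable S →
      ∃ R : Y →L[ℝ] Y, TopologicalSpace.IsSeparable (Set.range R) ∧ ∀ y ∈ S, R y = y)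
    (S : Submodule ℝ (Y × ZZ Y)) (hS : TopologicalSpace.IsSeparable (S : Set (Y × ZZ Y))) :
    ∃ T : Submodule ℝ (Y × ZZ Y), S ≤ T ∧ TopologicalSpace.IsSeparable (T : Set (Y × ZZ Y)) ∧
      T.ClosedComplemented := by
  classical
  have hS' := hS
  obtain ⟨c, hc, hSc⟩ := hS
  -- the support
  set I₀ : Set (ℝ × GG Y) := ⋃ x ∈ c, {i | (x.2 : ZZ Y) i ≠ 0} with hI₀
  have hI₀c : I₀.Countable := hc.biUnion (fun x _ => countable_supp x.2)
  have hsupp : ∀ x ∈ S, ∀ i, i ∉ I₀ → (x.2 : ZZ Y) i = 0 := by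
    intro x hx i hi
    have hcl : IsClosed {x : Y × ZZ Y | (x.2 : ZZ Y) i = 0} := by
      have : Continuous (fun x : Y × ZZ Y => (x.2 : ZZ Y) i) :=
        (lp.evalCLM ℝ (fun i : ℝ × GG Y => EE i) 1 i).continuous.comp continuous_snd
      exact isClosed_eq this continuous_const
    have hsub : c ⊆ {x : Y × ZZ Y | (x.2 : ZZ Y) i = 0} := by
      intro x hx
      by_contra h
      apply hi
      rw [hI₀]
      simp only [Set.mem_iUnion]
      exact ⟨x, hx, h⟩
    exact (closure_minimal hsub hcl) (hSc hx)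
  obtain ⟨R, hRsep, hRfix⟩ := hstar (Prod.fst '' (S : Set (Y × ZZ Y)))
    (TopologicalSpace.IsSeparable.image hS' continuous_fst)
  -- the subspace G
  set G : Submodule ℝ Y := (LinearMap.range R.toLinearMap).topologicalClosure with hG
  have hGc : IsClosed (G : Set Y) := Submodule.isClosed_topologicalClosure _
  have hGs : TopologicalSpace.IsSeparable (G : Set Y) := by
    rw [hG, Submodule.topologicalClosure_coe]
    have : ((LinearMap.range R.toLinearMap : Submodule ℝ Y) : Set Y) = Set.range R := by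
      ext y; simp
    rw [this]
    exact hRsep.closure
  have hRG : ∀ y, R y ∈ G := fun y => by
    rw [hG]
    exact Submodule.le_topologicalClosure _ ⟨y, rfl⟩
  obtain ⟨α, hα⟩ : ∃ α : ℝ, ((α, ⟨G, hGc, hGs⟩) : ℝ × GG Y) ∉ I₀ := by
    by_contra hcon
    push Not at hcon
    have : (Set.univ : Set ℝ).Countable := by
      have hpre : (Set.univ : Set ℝ) ⊆
          (fun α : ℝ => ((α, ⟨G, hGc, hGs⟩) : ℝ × GG Y)) ⁻¹' I₀ := fun α _ => hcon α
      refine (hI₀c.preimage ?_).mono hpre
      intro a b hab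
      exact (Prod.ext_iff.1 hab).1
    exact Cardinal.not_countable_real this
  set i₁ : ℝ × GG Y := (α, ⟨G, hGc, hGs⟩) with hi₁
  -- maps
  let RG : Y →L[ℝ] EE i₁ := R.codRestrict G hRG
  let DG : EE i₁ →L[ℝ] EE i₁ :=
    (ContinuousLinearMap.id ℝ (EE i₁)) - RG.comp (Submodule.subtypeL G)
  let ι : EE i₁ →L[ℝ] ZZ Y := lp.singleContinuousLinearMap ℝ (fun i : ℝ × GG Y => EE i) 1 i₁
  let ev : ZZ Y →L[ℝ] EE i₁ := lp.evalCLM ℝ (fun i : ℝ × GG Y => EE i) 1 i₁
  let j : EE i₁ →L[ℝ] Y × ZZ Y := (Submodule.subtypeL G).prod (ι.comp DG)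
  let q : Y × ZZ Y →L[ℝ] EE i₁ := RG.comp (ContinuousLinearMap.fst ℝ Y (ZZ Y)) +
    ev.comp (ContinuousLinearMap.snd ℝ Y (ZZ Y))
  let P1 : Y × ZZ Y →L[ℝ] Y × ZZ Y := j.comp q
  let P2 : Y × ZZ Y →L[ℝ] Y × ZZ Y := (ContinuousLinearMap.inr ℝ Y (ZZ Y)).comp
    ((restr I₀).comp (ContinuousLinearMap.snd ℝ Y (ZZ Y)))
  have hqj : ∀ g, q (j g) = g := by
    intro g
    have e1 : ev (ι (DG g)) = DG g := lp.single_apply_self 1 i₁ (DG g)
    have : q (j g) = RG (g : Y) + ev (ι (DG g)) := rfl
    rw [this, e1]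
    change RG (g : Y) + (g - RG (g : Y)) = g
    abel
  have hqP2 : ∀ x, q (P2 x) = 0 := by
    intro x
    have : q (P2 x) = RG 0 + (restr I₀ x.2) i₁ := rfl
    rw [this, map_zero, restr_apply, if_neg hα, zero_add]
  have hP2j : ∀ g, P2 (j g) = 0 := by
    intro g
    have h0 : restr I₀ (ι (DG g)) = 0 := by
      ext i
      rw [restr_apply]
      split_ifs with hi
      · have hne : i ≠ i₁ := fun h => hα (h ▸ hi)
        have : (ι (DG g)) i = 0 := lp.single_apply_ne 1 i₁ (DG g) hne
        rw [this]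
        rfl
      · rfl
    have : P2 (j g) = (0, restr I₀ (ι (DG g))) := rfl
    rw [this, h0]
    rfl
  have hP22 : ∀ x, P2 (P2 x) = P2 x := by
    intro x
    have : P2 (P2 x) = (0, restr I₀ (restr I₀ x.2)) := rfl
    rw [this]
    have h2 : P2 x = (0, restr I₀ x.2) := rfl
    rw [h2]
    congr 1
    ext i
    rw [restr_apply]
    split_ifs with hi
    · rfl
    · rw [restr_apply, if_neg hi]
  let P : Y × ZZ Y →L[ℝ] Y × ZZ Y := P1 + P2
  have hPP : ∀ x, P (P x) = P x := by
    intro x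
    have h1 : P (P x) = j (q (j (q x) + P2 x)) + P2 (j (q x) + P2 x) := rfl
    rw [h1, map_add q, map_add P2, hqj, hqP2, hP2j, hP22, add_zero, zero_add]
    rfl
  refine ⟨LinearMap.range P.toLinearMap, ?_, ?_, closedCompl_range P hPP⟩
  · intro x hx
    refine ⟨x, ?_⟩
    have hR : R x.1 = x.1 := hRfix x.1 ⟨x, hx, rfl⟩
    have hz : (x.2 : ZZ Y) i₁ = 0 := hsupp x hx i₁ hα
    have hq : (q x : Y) = x.1 := by
      have : q x = RG x.1 + (x.2 : ZZ Y) i₁ := rfl
      rw [this, hz, add_zero]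
      exact hR
    have hD : DG (q x) = 0 := by
      apply Subtype.ext
      change (q x : Y) - R (q x : Y) = 0
      rw [hq, hR, sub_self]
    have h1 : P.toLinearMap x = ((q x : Y), ι (DG (q x))) + (0, restr I₀ x.2) := rfl
    rw [h1, hD, map_zero, hq]
    have h2 : restr I₀ x.2 = x.2 := by
      ext i
      rw [restr_apply]
      split_ifs with hi
      · rfl
      · rw [hsupp x hx i hi]
    rw [h2]
    simp
  · have : TopologicalSpace.SeparableSpace (EE i₁) := hGs.separableSpace
    have hsep1 : TopologicalSpace.IsSeparable (Set.range j) :=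
      TopologicalSpace.isSeparable_range j.continuous
    have hsep2 : TopologicalSpace.IsSeparable
        ((fun z : ZZ Y => ((0 : Y), z)) '' {f : ZZ Y | ∀ i, i ∉ I₀ → f i = 0}) :=
      (sep_supp I₀ hI₀c).image (by fun_prop)
    have hsep3 := (hsep1.prod hsep2).image (f := fun p : (Y × ZZ Y) × (Y × ZZ Y) => p.1 + p.2)
      (by fun_prop)
    refine hsep3.mono ?_
    rintro _ ⟨x, rfl⟩
    refine ⟨(j (q x), (0, restr I₀ x.2)), ⟨⟨q x, rfl⟩, ⟨restr I₀ x.2, ?_, rfl⟩⟩, rfl⟩
    intro i hi
    rw [restr_apply, if_neg hi]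

end JRZ

theorem stmt_JRZ : Stmt_JRZ := by
  intro Y _ _ _ hstar hno hfin
  obtain ⟨S, hSsep, hSno⟩ := hno
  -- the complemented copy of Y
  let W : Submodule ℝ (Y × JRZ.ZZ Y) :=
    LinearMap.range (ContinuousLinearMap.inl ℝ Y (JRZ.ZZ Y)).toLinearMap
  have hW : W.ClosedComplemented := by
    refine ⟨((ContinuousLinearMap.inl ℝ Y (JRZ.ZZ Y)).comp
      (ContinuousLinearMap.fst ℝ Y (JRZ.ZZ Y))).codRestrict W (fun x => ⟨x.1, rfl⟩), ?_⟩
    rintro ⟨x, y, rfl⟩
    rfl
  have hall := hfin (Y × JRZ.ZZ Y) (JRZ.scp_X hstar) W hW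
  -- transfer maps
  let up : Y →L[ℝ] W :=
    (ContinuousLinearMap.inl ℝ Y (JRZ.ZZ Y)).codRestrict W (fun x => ⟨x, rfl⟩)
  let dn : W →L[ℝ] Y := (ContinuousLinearMap.fst ℝ Y (JRZ.ZZ Y)).comp W.subtypeL
  have hdu : ∀ y, dn (up y) = y := fun y => rfl
  have hud : ∀ w, up (dn w) = w := by
    rintro ⟨x, y, rfl⟩
    rfl
  obtain ⟨T, hST, hTsep, f, hf⟩ := hall (S.map up.toLinearMap) (by
    have := hSsep.image up.continuous
    refine this.mono ?_
    rintro _ ⟨y, hy, rfl⟩
    exact ⟨y, hy, rfl⟩)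
  refine hSno (T.map dn.toLinearMap) ?_ ?_ ?_
  · intro y hy
    exact ⟨up y, hST ⟨y, hy, rfl⟩, hdu y⟩
  · have := hTsep.image dn.continuous
    refine this.mono ?_
    rintro _ ⟨y, hy, rfl⟩
    exact ⟨y, hy, rfl⟩
  · refine ⟨((dn.comp T.subtypeL).comp (f.comp up)).codRestrict _ (fun x => ⟨f (up x), (f (up x)).2, rfl⟩), ?_⟩
    rintro ⟨x, w, hw, rfl⟩
    apply Subtype.ext
    change dn (f (up (dn w)) : W) = dn w
    rw [hud]
    have := hf ⟨w, hw⟩
    change f w = ⟨w, hw⟩ at this
    rw [this]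

end Pool.Agent.MP156639
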