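import Pool.Agent.Work.MP_156639_an.Interface
import Pool.Agent.Work.MP_156639_an.Basic

/-!
# MP_156639_an : block SP (the space exists)
-/

set_option autoImplicit false

open scoped BigOperators
open Filter Topology

namespace Pool.Agent.MP156639
namespace SP

variable {Ω : Type} [LinearOrder Ω] {D : LD Ω}

lemma le_of_eps {x C t : ℝ} (ht : 0 ≤ t) (h : ∀ ε > 0, x ≤ (C + ε) * t) : x ≤ C * t := by
  apply le_of_forall_pos_le_add
  intro δ hδ
  have h1 := h (δ / (t + 1)) (by positivity)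
  have h2 : δ / (t + 1) * t ≤ δ := by
    rw [div_mul_eq_mul_div, div_le_iff₀ (by linarith)]
    nlinarith
  nlinarith

/-- the bound passes to the infimum of the constants -/
lemma Bd_eps {C : ℝ} {f : Pt Ω → ℝ} (h : ∀ ε > 0, D.Bd (C + ε) f) : D.Bd C f where
  pt p := le_of_forall_pos_le_add fun ε hε => (h ε hε).pt p
  link N β l m := le_of_forall_pos_le_add fun ε hε => (h ε hε).link N β l m
  fib n c hn v hv hd ms hms := le_of_eps (by positivity) fun ε hε =>
    (h ε hε).fib n c hn v hv hd ms hms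
  path n hn N β hβ a b m hab := le_of_eps (by positivity) fun ε hε =>
    (h ε hε).path n hn N β hβ a b m hab

variable (D) in
/-- the functions with finite constant -/
def BS : Submodule ℝ (Pt Ω → ℝ) where
  carrier := {f | ∃ C, D.Bd C f}
  add_mem' := by
    rintro f g ⟨C, hC⟩ ⟨C', hC'⟩
    exact ⟨C + C', hC.add hC'⟩
  zero_mem' := ⟨0, LD.Bd.zero⟩
  smul_mem' := by
    rintro c f ⟨C, hC⟩
    exact ⟨|c| * C, hC.smul c⟩

variable (D) in
/-- the same space, without the product topology -/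
def BB : Type := ↥(BS D)

instance : AddCommGroup (BB D) := inferInstanceAs (AddCommGroup ↥(BS D))
instance : Module ℝ (BB D) := inferInstanceAs (Module ℝ ↥(BS D))

variable (D) in
/-- evaluation -/
def ev : BB D →ₗ[ℝ] (Pt Ω → ℝ) := (BS D).subtype

/-- an element of the space -/
def mk (f : Pt Ω → ℝ) (h : f ∈ BS D) : BB D := ⟨f, h⟩

lemma ev_mk (f : Pt Ω → ℝ) (h : f ∈ BS D) : ev D (mk f h) = f := rfl

lemma ev_inj {f g : BB D} (h : ev D f = ev D g) : f = g := Subtype.ext h

noncomputable instance : Norm (BB D) := ⟨fun f => sInf {C : ℝ | 0 ≤ C ∧ D.Bd C (ev D f)}⟩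

lemma norm_def (f : BB D) : ‖f‖ = sInf {C : ℝ | 0 ≤ C ∧ D.Bd C (ev D f)} := rfl

lemma norm_le {f : BB D} {C : ℝ} (hC : 0 ≤ C) (h : D.Bd C (ev D f)) : ‖f‖ ≤ C :=
  csInf_le ⟨0, fun _ hx => hx.1⟩ ⟨hC, h⟩

lemma set_nonempty (f : BB D) : {C : ℝ | 0 ≤ C ∧ D.Bd C (ev D f)}.Nonempty := by
  obtain ⟨C, hC⟩ := f.2
  exact ⟨max C 0, le_max_right _ _, LD.Bd.mono hC (le_max_left _ _)⟩

lemma norm_nonneg' (f : BB D) : 0 ≤ ‖f‖ :=
  Real.sInf_nonneg fun _ hx => hx.1

lemma bd_norm (f : BB D) : D.Bd ‖f‖ (ev D f) := by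
  apply Bd_eps
  intro ε hε
  have : sInf {C : ℝ | 0 ≤ C ∧ D.Bd C (ev D f)} < ‖f‖ + ε := by rw [norm_def]; linarith
  obtain ⟨C, hC, hlt⟩ := exists_lt_of_csInf_lt (set_nonempty f) this
  exact hC.2.mono hlt.le

lemma core : NormedSpace.Core ℝ (BB D) where
  norm_nonneg := norm_nonneg'
  norm_smul c x := by
    have h1 : ∀ (c : ℝ) (x : BB D), ‖c • x‖ ≤ |c| * ‖x‖ := by
      intro c x
      apply norm_le (mul_nonneg (abs_nonneg c) (norm_nonneg' x))
      rw [map_smul]
      exact (bd_norm x).smul c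
    rw [Real.norm_eq_abs]
    apply le_antisymm (h1 c x)
    by_cases hc : c = 0
    · subst hc
      rw [abs_zero, zero_mul]
      exact norm_nonneg' _
    · have h2 := h1 c⁻¹ (c • x)
      rw [smul_smul, inv_mul_cancel₀ hc, one_smul, abs_inv] at h2
      have h3 : 0 < |c| := abs_pos.2 hc
      calc |c| * ‖x‖ ≤ |c| * (|c|⁻¹ * ‖c • x‖) := mul_le_mul_of_nonneg_left h2 h3.le
        _ = ‖c • x‖ := by field_simp
  norm_triangle x y := by
    apply norm_le (add_nonneg (norm_nonneg' x) (norm_nonneg' y))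
    rw [map_add]
    exact (bd_norm x).add (bd_norm y)
  norm_eq_zero_iff x := by
    constructor
    · intro h
      apply ev_inj
      have := bd_norm x
      rw [h] at this
      rw [map_zero]
      funext p
      have h2 := this.pt p
      exact abs_nonpos_iff.1 h2
    · intro h
      apply le_antisymm _ (norm_nonneg' x)
      apply norm_le le_rfl
      rw [h, map_zero]
      exact LD.Bd.zero

noncomputable instance : NormedAddCommGroup (BB D) := NormedAddCommGroup.ofCore core
noncomputable instance : NormedSpace ℝ (BB D) := NormedSpace.ofCore core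

instance : CompleteSpace (BB D) := by
  apply Metric.complete_of_cauchySeq_tendsto
  intro u hu
  rw [Metric.cauchySeq_iff] at hu
  have hp : ∀ p, ∃ z, Tendsto (fun n => ev D (u n) p) atTop (𝓝 z) := by
    intro p
    apply cauchySeq_tendsto_of_complete
    rw [Metric.cauchySeq_iff]
    intro ε hε
    obtain ⟨N, hN⟩ := hu ε hε
    refine ⟨N, fun m hm n hn => ?_⟩
    have h1 := hN m hm n hn
    rw [dist_eq_norm] at h1
    rw [Real.dist_eq]
    have h2 := (bd_norm (u m - u n)).pt p
    rw [map_sub] at h2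
    exact lt_of_le_of_lt h2 h1
  choose z hz using hp
  have key : ∀ ε > 0, ∃ N, ∀ n ≥ N, D.Bd ε (ev D (u n) - z) := by
    intro ε hε
    obtain ⟨N, hN⟩ := hu ε hε
    refine ⟨N, fun n hn => ?_⟩
    refine LD.Bd.lim (f := fun k => ev D (u n) - ev D (u (k + N))) (fun k => ?_) (fun p => ?_)
    · have h1 := hN n hn (k + N) (by omega)
      rw [dist_eq_norm] at h1
      have h2 := (bd_norm (u n - u (k + N))).mono h1.le
      rwa [map_sub] at h2
    · have h3 := (hz p).comp (tendsto_add_atTop_nat N)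
      simp only [Pi.sub_apply]
      exact tendsto_const_nhds.sub h3
  obtain ⟨N₁, hN₁⟩ := key 1 one_pos
  have hzB : z ∈ BS D := by
    have h1 : z = ev D (u N₁) - (ev D (u N₁) - z) := by abel
    rw [h1]
    exact ⟨_, (bd_norm (u N₁)).sub (hN₁ N₁ le_rfl)⟩
  refine ⟨mk z hzB, ?_⟩
  rw [Metric.tendsto_atTop]
  intro ε hε
  obtain ⟨N, hN⟩ := key (ε / 2) (by linarith)
  refine ⟨N, fun n hn => ?_⟩
  rw [dist_eq_norm]
  have : ‖u n - mk z hzB‖ ≤ ε / 2 := by
    apply norm_le (by linarith)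
    rw [map_sub]
    exact hN n hn
  linarith

open Classical in
lemma GS_le (hN : Stmt_Nice) (hBT : Stmt_BT) : D.GS ≤ BS D := by
  have key : ∀ ψ ∈ D.SS, ∀ m : ℕ, tens ψ (fun k => if k = m then (1 : ℝ) else 0) ∈ BS D := by
    intro ψ hψ m
    obtain ⟨C, hC, hn⟩ := hN Ω D ψ hψ
    refine ⟨2 * C, hBT Ω D C 2 (2 * C) ψ _ hn ?_ ?_ (by linarith) ?_⟩
    · intro k
      split_ifs <;> simp
    · have := TVle_single m 1 (fun k => if k = m then (1 : ℝ) else 0)
        (fun k hk => by simp [hk]) (by simp)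
      simpa using this
    · intro n c _
      right; left
      have := one_le_th n
      nlinarith
  unfold LD.GS
  rw [Submodule.span_le]
  rintro f (⟨v, m, hv, rfl⟩ | ⟨N, β, m, hβ, rfl⟩)
  · have := key _ (Submodule.subset_span (Or.inl ⟨v, hv, rfl⟩)) m
    change (fun p : Pt Ω => if p = (v, m) then (1 : ℝ) else 0) ∈ BS D
    have e : (fun p : Pt Ω => if p = (v, m) then (1 : ℝ) else 0) =
        tens (fun w => if w = v then 1 else 0) (fun k => if k = m then (1 : ℝ) else 0) := by
     funext p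
     simp only [tens]
     by_cases h1 : p.1 = v
     · by_cases h2 : p.2 = m
       · rw [if_pos (Prod.ext h1 h2), if_pos h1, if_pos h2]; ring
       · rw [if_neg (fun h => h2 (by rw [h])), if_neg h2]; ring
     · rw [if_neg (fun h => h1 (by rw [h])), if_neg h1]; ring
    rw [e]
    exact this
  · have := key _ (Submodule.subset_span (Or.inr ⟨N, β, hβ, rfl⟩)) m
    change (fun p : Pt Ω => if p.2 = m then D.G N β p.1 else 0) ∈ BS D
    have e : (fun p : Pt Ω => if p.2 = m then D.G N β p.1 else 0) =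
        tens (D.G N β) (fun k => if k = m then (1 : ℝ) else 0) := by
      funext p
      simp only [tens]
      split_ifs <;> ring
    rw [e]
    exact this

end SP

theorem stmt_Sp (hN : Stmt_Nice) (hBT : Stmt_BT) : Stmt_Sp := by
  intro Ω _ D
  let V : Submodule ℝ (SP.BB D) := (Submodule.comap (SP.ev D) D.GS).topologicalClosure
  have hVc : IsClosed (V : Set (SP.BB D)) := Submodule.isClosed_topologicalClosure _
  refine ⟨V, inferInstance, inferInstance, hVc.completeSpace_coe, (SP.ev D).comp V.subtype, ?_⟩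
  have hsub : ∀ f : SP.BB D, SP.ev D f ∈ D.GS → f ∈ V := fun f hf =>
    Submodule.le_topologicalClosure _ hf
  refine ⟨fun y => SP.bd_norm y.1, fun y C hC h => SP.norm_le hC h, ?_, ?_⟩
  · intro f hf
    exact ⟨⟨SP.mk f (SP.GS_le hN hBT hf), hsub _ hf⟩, rfl⟩
  · intro y ε hε
    have hy : (y : SP.BB D) ∈ closure ((Submodule.comap (SP.ev D) D.GS : Submodule ℝ (SP.BB D)) :
        Set (SP.BB D)) := y.2
    rw [Metric.mem_closure_iff] at hy
    obtain ⟨b, hb, hd⟩ := hy ε hε
    refine ⟨⟨b, hsub b hb⟩, hb, ?_⟩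
    rw [dist_eq_norm] at hd
    exact hd

end Pool.Agent.MP156639
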