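import Pool.Agent.Work.MP_156639_an.Interface
import Pool.Agent.Work.MP_156639_an.Basic

/-!
# MP_156639_an : block STAR
-/

set_option autoImplicit false

open scoped BigOperators
open Filter Topology

namespace Pool.Agent.MP156639
namespace STAR

variable {Ω : Type} [LinearOrder Ω]

/-- the cut-off function -/
noncomputable def phi (β₀ : Ω) (v : Vx Ω) : ℝ :=
  if v.2.1 < β₀ then 1
  else if v.2.1 = β₀ then max (1 - (v.2.2 : ℝ) / ((v.1 : ℝ) + 1)) 0 else 0

lemma phi_lt {β₀ : Ω} {v : Vx Ω} (h : v.2.1 < β₀) : phi β₀ v = 1 := by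
  unfold phi; rw [if_pos h]

lemma phi_gt {β₀ : Ω} {v : Vx Ω} (h : β₀ < v.2.1) : phi β₀ v = 0 := by
  unfold phi; rw [if_neg (not_lt.2 h.le), if_neg (ne_of_gt h)]

lemma phi_far {β₀ : Ω} {v : Vx Ω} (h : β₀ ≤ v.2.1) (h2 : v.1 + 1 ≤ v.2.2) : phi β₀ v = 0 := by
  unfold phi
  rw [if_neg (not_lt.2 h)]
  split_ifs
  · apply max_eq_right
    rw [sub_nonpos, le_div_iff₀ (by positivity), one_mul]
    exact_mod_cast h2
  · rfl

lemma phi_top (β₀ : Ω) (N : ℕ) : phi β₀ (N, β₀, 0) = 1 := by
  unfold phi
  simp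

lemma phi_nonneg (β₀ : Ω) (v : Vx Ω) : 0 ≤ phi β₀ v := by
  unfold phi
  split_ifs
  · exact zero_le_one
  · exact le_max_right _ _
  · exact le_rfl

lemma phi_le_one (β₀ : Ω) (v : Vx Ω) : phi β₀ v ≤ 1 := by
  unfold phi
  split_ifs
  · exact le_rfl
  · apply max_le _ zero_le_one
    have : 0 ≤ (v.2.2 : ℝ) / ((v.1 : ℝ) + 1) := by positivity
    linarith
  · exact zero_le_one

lemma phi_link (β₀ : Ω) (N : ℕ) (β : Ω) (l : ℕ) :
    ((N : ℝ) + 1) * |phi β₀ (N, β, l) - phi β₀ (N, β, l + 1)| ≤ 1 := by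
  have hW : (0 : ℝ) < (N : ℝ) + 1 := by positivity
  unfold phi
  simp only
  split_ifs
  · simp
  · have h1 : |max (1 - (l : ℝ) / ((N : ℝ) + 1)) 0 -
        max (1 - ((l + 1 : ℕ) : ℝ) / ((N : ℝ) + 1)) 0| ≤
        |(1 - (l : ℝ) / ((N : ℝ) + 1)) - (1 - ((l + 1 : ℕ) : ℝ) / ((N : ℝ) + 1))| :=
      abs_max_sub_max_le_abs _ _ _
    have h2 : (1 - (l : ℝ) / ((N : ℝ) + 1)) - (1 - ((l + 1 : ℕ) : ℝ) / ((N : ℝ) + 1)) =
        1 / ((N : ℝ) + 1) := by
      push_cast
      ring
    have h3 : |1 / ((N : ℝ) + 1)| = 1 / ((N : ℝ) + 1) := abs_of_pos (by positivity)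
    rw [h2, h3] at h1
    calc _ ≤ ((N : ℝ) + 1) * (1 / ((N : ℝ) + 1)) := mul_le_mul_of_nonneg_left h1 hW.le
      _ = 1 := by field_simp
  · simp

variable {D : LD Ω}

lemma phi_node (β₀ : Ω) (N : ℕ) {β : Ω} (hβ : NonMin β) (a : ℕ) :
    phi β₀ (st N (D.lad β a)) = if (D.lad β a).1 < β₀ then 1 else 0 := by
  split_ifs with h
  · exact phi_lt h
  · apply phi_far (not_lt.1 h)
    have := D.lad_pos β hβ a
    unfold st
    simp only
    nlinarith

lemma phi_node_anti (β₀ : Ω) (N : ℕ) {β : Ω} (hβ : NonMin β) :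
    Antitone (fun a => phi β₀ (st N (D.lad β a))) := by
  intro a b hab
  simp only
  rw [phi_node β₀ N hβ, phi_node β₀ N hβ]
  have h := D.lad_mono β hβ hab
  simp only at h
  split_ifs with h1 h2
  · exact le_rfl
  · exact absurd (lt_of_le_of_lt h h1) h2
  · exact zero_le_one
  · exact le_rfl

/-- multiplication by `phi` -/
noncomputable def mul (β₀ : Ω) : (Pt Ω → ℝ) →ₗ[ℝ] (Pt Ω → ℝ) where
  toFun f p := phi β₀ p.1 * f p
  map_add' f g := by funext p; simp [mul_add]
  map_smul' c f := by funext p; simp; ring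

lemma mul_apply (β₀ : Ω) (f : Pt Ω → ℝ) (p : Pt Ω) : mul β₀ f p = phi β₀ p.1 * f p := rfl

lemma bd_mul (β₀ : Ω) {C : ℝ} (hC : 0 ≤ C) {f : Pt Ω → ℝ} (h : D.Bd C f) :
    D.Bd (2 * C) (mul β₀ f) where
  pt p := by
    rw [mul_apply, abs_mul, abs_of_nonneg (phi_nonneg β₀ _)]
    have h1 := h.pt p
    have h2 := phi_le_one β₀ p.1
    have h3 := phi_nonneg β₀ p.1
    nlinarith [abs_nonneg (f p)]
  link N β l m := by
    rw [mul_apply, mul_apply]
    simp only
    have hW : (0 : ℝ) < (N : ℝ) + 1 := by positivity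
    have e : phi β₀ (N, β, l) * f ((N, β, l), m) - phi β₀ (N, β, l + 1) * f ((N, β, l + 1), m) =
        phi β₀ (N, β, l) * (f ((N, β, l), m) - f ((N, β, l + 1), m)) +
          (phi β₀ (N, β, l) - phi β₀ (N, β, l + 1)) * f ((N, β, l + 1), m) := by ring
    rw [e]
    have h1 := h.link N β l m
    have h2 := phi_link β₀ N β l
    have h3 := h.pt ((N, β, l + 1), m)
    have h4 := phi_le_one β₀ (N, β, l)
    have h5 := phi_nonneg β₀ (N, β, l)
    calc ((N : ℝ) + 1) * |phi β₀ (N, β, l) * (f ((N, β, l), m) - f ((N, β, l + 1), m)) +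
          (phi β₀ (N, β, l) - phi β₀ (N, β, l + 1)) * f ((N, β, l + 1), m)|
        ≤ ((N : ℝ) + 1) * (|phi β₀ (N, β, l) * (f ((N, β, l), m) - f ((N, β, l + 1), m))| +
          |(phi β₀ (N, β, l) - phi β₀ (N, β, l + 1)) * f ((N, β, l + 1), m)|) :=
          mul_le_mul_of_nonneg_left (abs_add_le _ _) hW.le
      _ = phi β₀ (N, β, l) * (((N : ℝ) + 1) * |f ((N, β, l), m) - f ((N, β, l + 1), m)|) +
          (((N : ℝ) + 1) * |phi β₀ (N, β, l) - phi β₀ (N, β, l + 1)|) *
            |f ((N, β, l + 1), m)| := by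
          rw [abs_mul, abs_mul, abs_of_nonneg h5]; ring
      _ ≤ 1 * C + 1 * C := by
          apply add_le_add
          · exact mul_le_mul h4 h1 (by positivity) zero_le_one
          · exact mul_le_mul h2 h3 (abs_nonneg _) zero_le_one
      _ = 2 * C := by ring
  fib n c hn v hv hd ms hms := by
    have h1 := h.fib n c hn v hv hd ms hms
    have h2 : ∀ i, |mul β₀ f (v, ms (i + 1)) - mul β₀ f (v, ms i)| =
        phi β₀ v * |f (v, ms (i + 1)) - f (v, ms i)| := by
      intro i
      rw [mul_apply, mul_apply]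
      simp only
      rw [← mul_sub, abs_mul, abs_of_nonneg (phi_nonneg β₀ _)]
    simp only [h2]
    rw [← Finset.mul_sum]
    have h3 := phi_le_one β₀ v
    have h4 := phi_nonneg β₀ v
    have h5 : 0 ≤ ∑ i ∈ Finset.range (Kn n), |f (v, ms (i + 1)) - f (v, ms i)| :=
      Finset.sum_nonneg fun _ _ => abs_nonneg _
    have h6 := one_le_th n
    nlinarith
  path n hn N β hβ a b m hab := by
    have h1 := h.path n hn N β hβ a b m hab
    have h2 : ∀ i, |mul β₀ f (st N (D.lad β (a i)), m i) - mul β₀ f (st N (D.lad β (b i)), m i)| ≤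
        |f (st N (D.lad β (a i)), m i) - f (st N (D.lad β (b i)), m i)| +
          |phi β₀ (st N (D.lad β (a i))) - phi β₀ (st N (D.lad β (b i)))| * C := by
      intro i
      rw [mul_apply, mul_apply]
      simp only
      set p := phi β₀ (st N (D.lad β (a i)))
      set q := phi β₀ (st N (D.lad β (b i)))
      set x := f (st N (D.lad β (a i)), m i)
      set y := f (st N (D.lad β (b i)), m i)
      have e : p * x - q * y = p * (x - y) + (p - q) * y := by ring
      rw [e]
      refine (abs_add_le _ _).trans (add_le_add ?_ ?_)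
      · rw [abs_mul, abs_of_nonneg (phi_nonneg β₀ _)]
        exact mul_le_of_le_one_left (abs_nonneg _) (phi_le_one β₀ _)
      · rw [abs_mul]
        exact mul_le_mul_of_nonneg_left (h.pt _) (abs_nonneg _)
    have h3 := (TVle.of_antitone (phi_node_anti (D := D) β₀ N hβ) (A := 0) (B := 1)
      (fun m => phi_nonneg β₀ _) (fun m => phi_le_one β₀ _)).pairs hab (Kn n)
    simp only [sub_zero] at h3
    calc _ ≤ ∑ i ∈ Finset.range (Kn n),
          (|f (st N (D.lad β (a i)), m i) - f (st N (D.lad β (b i)), m i)| +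
          |phi β₀ (st N (D.lad β (a i))) - phi β₀ (st N (D.lad β (b i)))| * C) :=
          Finset.sum_le_sum fun i _ => h2 i
      _ = ∑ i ∈ Finset.range (Kn n),
          |f (st N (D.lad β (a i)), m i) - f (st N (D.lad β (b i)), m i)| +
          (∑ i ∈ Finset.range (Kn n),
            |phi β₀ (st N (D.lad β (a i))) - phi β₀ (st N (D.lad β (b i)))|) * C := by
          rw [Finset.sum_add_distrib, Finset.sum_mul]
      _ ≤ C * (th n : ℝ) + 1 * C := add_le_add h1 (mul_le_mul_of_nonneg_right h3 hC)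
      _ ≤ 2 * C * (th n : ℝ) := by
          have := one_le_th n
          nlinarith

open Classical in
variable (D) in
/-- the generators living in the blocks `≤ β₀` -/
def Gen (β₀ : Ω) : Set (Pt Ω → ℝ) :=
  {f | ∃ (v : Vx Ω) (m : ℕ), ¬ Lim v ∧ v.2.1 ≤ β₀ ∧ f = fun p => if p = (v, m) then 1 else 0} ∪
  {f | ∃ (N : ℕ) (β : Ω) (m : ℕ), NonMin β ∧ β ≤ β₀ ∧
    f = fun p => if p.2 = m then D.G N β p.1 else 0}

lemma Gen_countable (β₀ : Ω) (hc : (Set.Iio β₀).Countable) : (Gen D β₀).Countable := by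
  classical
  have hc' : (Set.Iic β₀).Countable := by
    have : Set.Iic β₀ = Set.Iio β₀ ∪ {β₀} := by
      ext x; simp [le_iff_lt_or_eq]
    rw [this]
    exact hc.union (Set.countable_singleton _)
  have := hc'.to_subtype
  apply Set.Countable.union
  · refine (Set.countable_range (fun t : (ℕ × Set.Iic β₀ × ℕ) × ℕ =>
      (fun p : Pt Ω => if p = ((t.1.1, (t.1.2.1 : Ω), t.1.2.2), t.2) then (1 : ℝ) else 0))).mono ?_
    rintro f ⟨v, m, _, hv, rfl⟩
    exact ⟨((v.1, ⟨v.2.1, hv⟩, v.2.2), m), rfl⟩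
  · refine (Set.countable_range (fun t : ℕ × Set.Iic β₀ × ℕ =>
      (fun p : Pt Ω => if p.2 = t.2.2 then D.G t.1 (t.2.1 : Ω) p.1 else 0))).mono ?_
    rintro f ⟨N, β, m, _, hβ, rfl⟩
    exact ⟨(N, ⟨β, hβ⟩, m), rfl⟩

lemma Gen_sub (β₀ : Ω) : Submodule.span ℝ (Gen D β₀) ≤ D.GS := by
  unfold LD.GS
  apply Submodule.span_mono
  rintro f (⟨v, m, hv, _, rfl⟩ | ⟨N, β, m, hβ, _, rfl⟩)
  · exact Or.inl ⟨v, m, hv, rfl⟩
  · exact Or.inr ⟨N, β, m, hβ, rfl⟩

/-- finitely supported functions -/
lemma fin_mem (β₀ : Ω) (m : ℕ) (F : Set (Vx Ω)) (hF : F.Finite)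
    (hF2 : ∀ v ∈ F, ¬ Lim v ∧ v.2.1 ≤ β₀) (f : Pt Ω → ℝ)
    (hf : ∀ p : Pt Ω, f p ≠ 0 → p.1 ∈ F ∧ p.2 = m) : f ∈ Submodule.span ℝ (Gen D β₀) := by
  classical
  have e : f = ∑ v ∈ hF.toFinset, f (v, m) • (fun p : Pt Ω => if p = (v, m) then (1 : ℝ) else 0) := by
    funext p
    rw [Finset.sum_apply]
    simp only [Pi.smul_apply, smul_eq_mul]
    by_cases h : p.1 ∈ F ∧ p.2 = m
    · rw [Finset.sum_eq_single p.1]
      · have : p = (p.1, m) := Prod.ext rfl h.2
        rw [if_pos this, ← this, mul_one]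
      · intro b _ hb
        rw [if_neg, mul_zero]
        intro hp
        exact hb (by rw [hp])
      · intro hp
        exact absurd (hF.mem_toFinset.2 h.1) hp
    · have h0 : f p = 0 := by
        by_contra hne
        exact h (hf p hne)
      rw [h0]
      symm
      apply Finset.sum_eq_zero
      intro v hv
      rw [if_neg, mul_zero]
      intro hp
      apply h
      rw [hp]
      exact ⟨hF.mem_toFinset.1 hv, rfl⟩
  rw [e]
  apply Submodule.sum_mem
  intro v hv
  apply Submodule.smul_mem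
  apply Submodule.subset_span
  have := hF2 v (hF.mem_toFinset.1 hv)
  exact Or.inl ⟨v, m, this.1, this.2, rfl⟩

lemma near_pos_le {N l : ℕ} (h : 1 ≤ near N l) : N + 1 ≤ l := by
  have h1 := (near_spec N l).1
  nlinarith

lemma mul_G (β₀ : Ω) (N : ℕ) (β : Ω) (m : ℕ) (hβ : NonMin β) :
    mul β₀ (fun p => if p.2 = m then D.G N β p.1 else 0) ∈ Submodule.span ℝ (Gen D β₀) := by
  classical
  -- support of `G`
  have hsupp : ∀ v : Vx Ω, D.G N β v ≠ 0 → v.1 = N ∧ D.InLad β (ns v) := by
    intro v hv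
    unfold LD.G at hv
    by_contra h
    rw [if_neg h] at hv
    exact hv rfl
  rcases lt_trichotomy β β₀ with h | h | h
  · have e : mul β₀ (fun p => if p.2 = m then D.G N β p.1 else 0) =
        (fun p => if p.2 = m then D.G N β p.1 else 0) := by
      funext p
      rw [mul_apply]
      by_cases h0 : D.G N β p.1 = 0
      · simp [h0]
      · have h1 := hsupp _ h0
        have h2 : p.1.2.1 < β₀ := by
          rcases h1.2 with h3 | ⟨a, h3⟩
          · have : p.1.2.1 = β := by
              have := congrArg Prod.fst h3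
              simpa [ns] using this
            rw [this]; exact h
          · have : p.1.2.1 = (D.lad β a).1 := by
              have := congrArg Prod.fst h3
              simpa [ns] using this
            rw [this]; exact (D.lad_lt β hβ a).trans h
        rw [phi_lt h2, one_mul]
    rw [e]
    apply Submodule.subset_span
    exact Or.inr ⟨N, β, m, hβ, h.le, rfl⟩
  · subst h
    have e : mul β (fun p => if p.2 = m then D.G N β p.1 else 0) =
        (fun p => if p.2 = m then D.G N β p.1 else 0) +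
        (fun p => if p.2 = m then (phi β p.1 - 1) * D.G N β p.1 else 0) := by
      funext p
      rw [mul_apply]
      simp only [Pi.add_apply]
      split_ifs <;> ring
    rw [e]
    apply Submodule.add_mem
    · apply Submodule.subset_span
      exact Or.inr ⟨N, β, m, hβ, le_rfl, rfl⟩
    · apply fin_mem β m ({v : Vx Ω | v.1 = N ∧ ns v = (β, 0)} \ {(N, β, 0)})
        ((window_finite N (β, 0)).subset Set.sdiff_subset)
      · rintro v ⟨⟨h1, h2⟩, h3⟩
        have hb : v.2.1 = β := by
          have := congrArg Prod.fst h2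
          simpa [ns] using this
        constructor
        · rintro ⟨h4, _⟩
          apply h3
          exact Prod.ext h1 (Prod.ext hb h4)
        · exact hb.le
      · intro p hp
        by_cases hm : p.2 = m
        · rw [if_pos hm] at hp
          refine ⟨?_, hm⟩
          have hG : D.G N β p.1 ≠ 0 := fun h0 => hp (by rw [h0, mul_zero])
          have hph : phi β p.1 ≠ 1 := fun h0 => hp (by rw [h0, sub_self, zero_mul])
          have h1 := hsupp _ hG
          refine ⟨⟨h1.1, ?_⟩, ?_⟩
          · rcases h1.2 with h3 | ⟨a, h3⟩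
            · exact h3
            · exfalso
              apply hph
              apply phi_lt
              have : p.1.2.1 = (D.lad β a).1 := by
                have := congrArg Prod.fst h3
                simpa [ns] using this
              rw [this]; exact D.lad_lt β hβ a
          · intro h3
            apply hph
            have : p.1 = (N, β, 0) := h3
            rw [this]
            exact phi_top β N
        · rw [if_neg hm] at hp
          exact absurd rfl hp
  · obtain ⟨b, hb⟩ := D.lad_cof β hβ β₀ h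
    apply fin_mem β₀ m (⋃ a ∈ Set.Iio b, {v : Vx Ω | v.1 = N ∧ ns v = D.lad β a} ∩ {v | v.2.1 ≤ β₀})
      ((Set.finite_Iio b).biUnion fun a _ => (window_finite N _).subset Set.inter_subset_left)
    · intro v hv
      simp only [Set.mem_iUnion] at hv
      obtain ⟨a, _, ⟨h1, h2⟩, h3⟩ := hv
      refine ⟨?_, h3⟩
      rintro ⟨h4, _⟩
      have h5 := D.lad_pos β hβ a
      rw [← h2] at h5
      have h6 := near_pos_le h5
      omega
    · intro p hp
      rw [mul_apply] at hp
      by_cases hm : p.2 = m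
      · rw [if_pos hm] at hp
        refine ⟨?_, hm⟩
        have hG : D.G N β p.1 ≠ 0 := fun h0 => hp (by rw [h0, mul_zero])
        have hph : phi β₀ p.1 ≠ 0 := fun h0 => hp (by rw [h0, zero_mul])
        have h1 := hsupp _ hG
        have hle : p.1.2.1 ≤ β₀ := by
          by_contra hcon
          exact hph (phi_gt (not_le.1 hcon))
        rcases h1.2 with h3 | ⟨a, h3⟩
        · exfalso
          have : p.1.2.1 = β := by
            have := congrArg Prod.fst h3
            simpa [ns] using this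
          rw [this] at hle
          exact absurd h (not_lt.2 hle)
        · simp only [Set.mem_iUnion]
          refine ⟨a, ?_, ⟨h1.1, h3⟩, hle⟩
          simp only [Set.mem_Iio]
          by_contra hab
          push Not at hab
          have h4 := hb a hab
          have h5 : p.1.2.1 = (D.lad β a).1 := by
            have := congrArg Prod.fst h3
            simpa [ns] using this
          rw [← h5] at h4
          apply hph
          apply phi_far h4
          have h6 := D.lad_pos β hβ a
          rw [← h3] at h6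
          exact near_pos_le h6
      · rw [if_neg hm, mul_zero] at hp
        exact absurd rfl hp

lemma mul_mem (β₀ : Ω) : ∀ f ∈ D.GS, mul β₀ f ∈ Submodule.span ℝ (Gen D β₀) := by
  classical
  have : D.GS ≤ Submodule.comap (mul β₀) (Submodule.span ℝ (Gen D β₀)) := by
    unfold LD.GS
    rw [Submodule.span_le]
    rintro f (⟨v, m, hv, rfl⟩ | ⟨N, β, m, hβ, rfl⟩)
    · change mul β₀ _ ∈ Submodule.span ℝ (Gen D β₀)
      have e : mul β₀ (fun p : Pt Ω => if p = (v, m) then (1 : ℝ) else 0) =
          phi β₀ v • (fun p : Pt Ω => if p = (v, m) then (1 : ℝ) else 0) := by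
        funext p
        rw [mul_apply]
        simp only [Pi.smul_apply, smul_eq_mul]
        split_ifs with h
        · rw [h]
        · ring
      rw [e]
      by_cases hv2 : v.2.1 ≤ β₀
      · apply Submodule.smul_mem
        apply Submodule.subset_span
        exact Or.inl ⟨v, m, hv, hv2, rfl⟩
      · rw [phi_gt (not_le.1 hv2), zero_smul]
        exact Submodule.zero_mem _
    · exact mul_G β₀ N β m hβ
  exact this

variable {Y : Type} [NormedAddCommGroup Y] [NormedSpace ℝ Y]
  {val : Y →ₗ[ℝ] (Pt Ω → ℝ)}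

/-- distance estimate -/
lemma norm_mul_le (h : D.IsSp val) (β₀ : Ω) {y y' : Y} (hy : val y' = mul β₀ (val y)) :
    ‖y'‖ ≤ 2 * ‖y‖ := by
  apply h.le _ _ (by positivity)
  rw [hy]
  exact bd_mul β₀ (norm_nonneg _) (h.bd y)

lemma exists_mul [CompleteSpace Y] (h : D.IsSp val) (β₀ : Ω) (y : Y) :
    ∃ y', val y' = mul β₀ (val y) ∧
      y' ∈ closure {w : Y | val w ∈ Submodule.span ℝ (Gen D β₀)} := by
  have h1 : ∀ n : ℕ, ∃ u u' : Y, val u' = mul β₀ (val u) ∧
      val u' ∈ Submodule.span ℝ (Gen D β₀) ∧ ‖y - u‖ < 1 / ((n : ℝ) + 1) := by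
    intro n
    obtain ⟨u, hu, hd⟩ := h.dense y (1 / ((n : ℝ) + 1)) (by positivity)
    have h2 := mul_mem β₀ _ hu
    obtain ⟨u', hu'⟩ := h.gen _ (Gen_sub β₀ h2)
    exact ⟨u, u', hu', hu' ▸ h2, hd⟩
  choose u u' hu hu2 hd using h1
  have hlim : Tendsto u atTop (𝓝 y) := by
    rw [tendsto_iff_norm_sub_tendsto_zero]
    refine squeeze_zero (fun _ => norm_nonneg _) (fun n => ?_) tendsto_one_div_add_atTop_nhds_zero_nat
    rw [norm_sub_rev]
    exact (hd n).le
  have hc : CauchySeq u' := by
    have hcu := hlim.cauchySeq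
    rw [Metric.cauchySeq_iff] at hcu ⊢
    intro ε hε
    obtain ⟨N, hN⟩ := hcu (ε / 2) (by linarith)
    refine ⟨N, fun m hm n hn => ?_⟩
    have h3 := hN m hm n hn
    rw [dist_eq_norm] at h3 ⊢
    have h4 := norm_mul_le h β₀ (y := u m - u n) (y' := u' m - u' n) (by
      rw [map_sub, map_sub, map_sub, hu, hu])
    linarith
  obtain ⟨y', hy'⟩ := cauchySeq_tendsto_of_complete hc
  refine ⟨y', ?_, ?_⟩
  · funext p
    have t1 : Tendsto (fun n => val (u' n) p) atTop (𝓝 (val y' p)) := by
      rw [tendsto_iff_norm_sub_tendsto_zero]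
      refine squeeze_zero (fun _ => norm_nonneg _) (fun n => ?_)
        (tendsto_iff_norm_sub_tendsto_zero.1 hy')
      rw [Real.norm_eq_abs]
      exact h.abs_sub_le _ _ p
    have t2 : Tendsto (fun n => val (u n) p) atTop (𝓝 (val y p)) := by
      rw [tendsto_iff_norm_sub_tendsto_zero]
      refine squeeze_zero (fun _ => norm_nonneg _) (fun n => ?_)
        (tendsto_iff_norm_sub_tendsto_zero.1 hlim)
      rw [Real.norm_eq_abs]
      exact h.abs_sub_le _ _ p
    have t3 : Tendsto (fun n => val (u' n) p) atTop (𝓝 (mul β₀ (val y) p)) := by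
      simp only [hu, mul_apply]
      exact t2.const_mul _
    exact tendsto_nhds_unique t1 t3
  · exact mem_closure_of_tendsto hy' (Eventually.of_forall fun n => hu2 n)

end STAR

theorem stmt_STAR (hO4 : Stmt_O4) : Stmt_STAR := by
  intro Ω _ _ D hc hu Y _ _ _ val h S hS
  obtain ⟨βs, hβs⟩ := hO4 Ω D hc hu Y val h S hS
  choose r hr hr2 using STAR.exists_mul h βs
  let Rl : Y →ₗ[ℝ] Y :=
    { toFun := r
      map_add' := by
        intro x y
        apply h.inj
        rw [map_add, hr, hr, hr, map_add, map_add]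
      map_smul' := by
        intro c x
        apply h.inj
        rw [map_smul, hr, hr, map_smul, map_smul]
        rfl }
  let R : Y →L[ℝ] Y := Rl.mkContinuous 2 (fun y => STAR.norm_mul_le h βs (hr y))
  refine ⟨R, ?_, ?_⟩
  · -- separability of the range
    let G₀ : Set Y := {w | val w ∈ STAR.Gen D βs}
    have hG₀ : G₀.Countable := by
      have := STAR.Gen_countable (D := D) βs (hc βs)
      exact this.preimage (f := val) (fun a b hab => h.inj hab)
    have hsep : TopologicalSpace.IsSeparable (closure ((Submodule.span ℝ G₀ : Submodule ℝ Y) : Set Y)) :=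
      ((hG₀.isSeparable).span (R := ℝ)).closure
    refine hsep.mono ?_
    rintro _ ⟨y, rfl⟩
    refine closure_mono ?_ (hr2 y)
    intro w hw
    have hw' : val w ∈ Submodule.span ℝ (STAR.Gen D βs) := hw
    have : Submodule.span ℝ (STAR.Gen D βs) ≤ (Submodule.span ℝ G₀).map val := by
      rw [Submodule.span_le]
      intro f hf
      obtain ⟨u, hu⟩ := h.gen f (STAR.Gen_sub βs (Submodule.subset_span hf))
      exact ⟨u, Submodule.subset_span (by change val u ∈ STAR.Gen D βs; rw [hu]; exact hf), hu⟩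
    obtain ⟨w', hw1, hw2⟩ := this hw'
    have : w' = w := h.inj hw2
    rw [← this]
    exact hw1
  · intro y hy
    apply h.inj
    change val (r y) = val y
    rw [hr]
    funext p
    rw [STAR.mul_apply]
    by_cases hp : βs ≤ p.1.2.1
    · have := hβs y hy p.1 hp p.2
      have e : val y p = 0 := this
      rw [e, mul_zero]
    · rw [STAR.phi_lt (not_le.1 hp), one_mul]

end Pool.Agent.MP156639
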